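import Pool.Agent.Q37.FS.Main
import Pool.Agent.Q37.FS.Der

/-!
# MP_9fe44b_al, Q1: yes
-/

namespace Pool.Agent.Results.MP_9fe44b_al.ShriekNotConservative

open Pool.Agent.Q37.FS CategoryTheory CategoryTheory.Abelian Limits

universe w w'

/-- There are commutative rings `R ≠ 0` and `S` and a faithfully flat ring homomorphism `f : R → S`
such that `Ext^j_R(S, R) = 0` for all `j`; on derived categories, `f^* = S ⊗_R -` is conservative,
`f_*` (restriction of scalars) is its right adjoint, every morphism from an object in the image of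
`f_*` to the unit `R[0]` is zero, and every right adjoint `f^!` of a right adjoint of `f^*` satisfies
`f^!(R[0]) = 0` while `R[0] ≠ 0`; so `f^!` is not conservative. -/
theorem result :
    ∃ (R S : Type) (_ : CommRing R) (_ : CommRing S) (f : R →+* S) (hf : f.FaithfullyFlat),
      (∀ j : ℕ, Subsingleton (Ext ((ModuleCat.restrictScalars.{0} f).obj (ModuleCat.of S S))
        (ModuleCat.of R R) j)) ∧
      ∀ [HasDerivedCategory.{w} (ModuleCat.{0} R)] [HasDerivedCategory.{w'} (ModuleCat.{0} S)],
        (upStar f hf.flat).ReflectsIsomorphisms ∧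
        Nonempty (upStar f hf.flat ⊣ lowStar f) ∧
        ¬ IsZero (unitObj R) ∧
        (∀ (Y : DerivedCategory (ModuleCat.{0} S)) (g : (lowStar f).obj Y ⟶ unitObj R), g = 0) ∧
        ∀ (fl : DerivedCategory (ModuleCat.{0} S) ⥤ DerivedCategory (ModuleCat.{0} R))
          (fs : DerivedCategory (ModuleCat.{0} R) ⥤ DerivedCategory (ModuleCat.{0} S)),
          (upStar f hf.flat ⊣ fl) → (fl ⊣ fs) →
            IsZero (fs.obj (unitObj R)) ∧ ¬ fs.ReflectsIsomorphisms := by
  obtain ⟨R, S, _, _, _, _, hff, h⟩ := t_MAIN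
  have h1 : (algebraMap R S).toAlgebra = ‹Algebra R S› := toAlgebra_algebraMap ..
  have hf : (algebraMap R S).FaithfullyFlat := by
    change @Module.FaithfullyFlat R S _ _ (algebraMap R S).toAlgebra.toModule
    rw [h1]
    exact hff
  have h2 : ∀ j : ℕ, Subsingleton (Ext (rS (algebraMap R S)) (ModuleCat.of R R) j) := by
    refine ev_rS (algebraMap R S) ?_
    rw [h1]
    exact h
  exact ⟨R, S, inferInstance, inferInstance, algebraMap R S, hf, h2,
    upStar_reflects _ hf, ⟨starAdj _ hf.flat⟩, unit_nz, low_zero _ h2,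
    fun fl fs a b => ⟨shriek_zero _ hf.flat h2 fl a fs b, shriek_not _ hf.flat h2 fl a fs b⟩⟩

end Pool.Agent.Results.MP_9fe44b_al.ShriekNotConservative
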